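import Pool.Agent.H5.RPG.Stmts

/-!
# Row SND of the board `rpg`: the labels are right
-/

set_option autoImplicit false

namespace Pool.RPG

open Filter TMLib Pool.PG

private theorem snd_getD (n : ℕ) (f : ℕ → Bool) (v : ℕ) (hv : v < n) :
    ((List.range n).map f).getD v false = f v := by
  rw [List.getD_eq_getElem?_getD, List.getElem?_map, List.getElem?_range hv]
  rfl

theorem snd_thm (_ : RITStmt) (h2 : WNRStmt) (h3 : WNUStmt) (h4 : SOLStmt) : SNDStmt := by
  intro g hg hne
  have hgood : good g = true := by
    by_contra h
    apply hne
    unfold lab
    rw [if_neg h]
  have hlab : lab g = (List.range g.length).map fun v =>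
      (R true g).getD v false || (!(R false g).getD v false && ev v (red g)) := by
    unfold lab
    rw [if_pos hgood]
  refine ⟨?_, ?_⟩
  · rw [hlab, List.length_map, List.length_range]
  · intro v hv
    rw [hlab, snd_getD _ _ v hv, (h4 g hg).2 v hv]
    cases ht : (R true g).getD v false with
    | true =>
      rw [Bool.true_or]
      exact h2 g true v hg ht
    | false =>
      rw [Bool.false_or]
      cases hf : (R false g).getD v false with
      | true =>
        rw [Bool.not_true, Bool.false_and]
        exact h2 g false v hg hf
      | false =>
        rw [Bool.not_false, Bool.true_and]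
        refine h3 g v hg hgood hv ?_
        unfold U
        rw [snd_getD _ _ v hv, ht, hf]
        rfl

end Pool.RPG
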